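import Pool.Agent.WAP.StmtsP2
import Pool.Agent.WAP.StmtsM

set_option autoImplicit false

/-!
# Squad WAP, row K2G: every point goes to the origin under the powers of `1 + i`
-/

namespace Pool.Agent.WAP.H23

open Pool.Agent.WAP Pool.Agent.WAP.P2 Classical

variable {F : Type} [NormedField F] [Algebra GaussianInt F] {v : F → ℤ}

/-- the image of `i` -/
noncomputable def II (F : Type) [NormedField F] [Algebra GaussianInt F] : F :=
  algebraMap GaussianInt F ⟨0, 1⟩

theorem II_sq : (II F) * (II F) = -1 := by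
  unfold II
  rw [← map_mul]
  have : (⟨0, 1⟩ : GaussianInt) * ⟨0, 1⟩ = -1 := by decide
  rw [this, map_neg, map_one]

theorem la_eq : la F = 1 + II F := by
  unfold la II lam
  rw [← map_one (algebraMap GaussianInt F), ← map_add]
  congr 1

theorem la_sq : la F * la F = 2 * II F := by
  rw [la_eq]
  linear_combination (II_sq (F := F))

theorem II_ne : II F ≠ 0 := by
  intro h
  have := II_sq (F := F)
  rw [h, mul_zero] at this
  exact one_ne_zero (neg_eq_zero.1 this.symm)

theorem v_II (h : IsV F v) : v (II F) = 0 := by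
  have := h.mul (II F) (II F) II_ne II_ne
  rw [II_sq, h.neg_one] at this
  omega

theorem la_ne (h : IsV F v) : la F ≠ 0 := norm_pos_iff.1 h.pos

theorem v_la (h : IsV F v) : v (la F) = 1 := by
  have h1 := h.mul (la F) (la F) (la_ne h) (la_ne h)
  rw [la_sq, h.mul 2 (II F) h.two_ne II_ne, h.two, v_II h] at h1
  omega

/-- `x` is `0` or has valuation at least `n` -/
def Ge (v : F → ℤ) (n : ℤ) (x : F) : Prop := x = 0 ∨ n ≤ v x

theorem ge_add (h : IsV F v) {n : ℤ} {x y : F} (hx : Ge v n x) (hy : Ge v n y) :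
    Ge v n (x + y) := by
  rcases hx with rfl | hx
  · rw [zero_add]; exact hy
  rcases hy with rfl | hy
  · rw [add_zero]; exact Or.inr hx
  by_cases x0 : x = 0
  · rw [x0, zero_add]; exact Or.inr hy
  by_cases y0 : y = 0
  · rw [y0, add_zero]; exact Or.inr hx
  by_cases hxy : x + y = 0
  · exact Or.inl hxy
  · exact Or.inr (le_trans (le_min hx hy) (h.add x y x0 y0 hxy))

theorem ge_neg (h : IsV F v) {n : ℤ} {x : F} (hx : Ge v n x) : Ge v n (-x) := by
  by_cases x0 : x = 0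
  · left; rw [x0, neg_zero]
  · rcases hx with hx | hx
    · exact absurd hx x0
    · right; rw [h.neg x x0]; exact hx

theorem ge_mul (h : IsV F v) {n m : ℤ} {x y : F} (hx : Ge v n x) (hy : Ge v m y) :
    Ge v (n + m) (x * y) := by
  by_cases x0 : x = 0
  · left; rw [x0, zero_mul]
  by_cases y0 : y = 0
  · left; rw [y0, mul_zero]
  rcases hx with hx | hx
  · exact absurd hx x0
  rcases hy with hy | hy
  · exact absurd hy y0
  right
  rw [h.mul x y x0 y0]
  omega

/-- the point goes to the origin -/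
def Good {d : F} (P : Pt d) : Prop := ∀ N : ℝ, ∃ j : ℕ, Big N (sm (lam ^ j) P)

theorem sm_one' {d : F} (P : Pt d) : sm 1 P = P := by
  show gsm (algebraMap GaussianInt F) 1 P = P
  simp [gsm]

theorem sm_zero' {d : F} (a : GaussianInt) : sm a (0 : Pt d) = 0 := by
  show gsm (algebraMap GaussianInt F) a 0 = 0
  simp [gsm]

theorem sm_pow_succ {d : F} (j : ℕ) (P : Pt d) :
    sm (lam ^ (j + 1)) P = sm (lam ^ j) (sm lam P) := by
  rw [pow_succ]
  exact mul_gsm (algebraMap GaussianInt F) (lam ^ j) lam P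

theorem good_step {d : F} {P : Pt d} (h : Good (sm lam P)) : Good P := by
  intro N
  obtain ⟨j, hj⟩ := h N
  exact ⟨j + 1, by rw [sm_pow_succ]; exact hj⟩

theorem good_zero {d : F} : Good (0 : Pt d) := by
  intro N
  exact ⟨0, Or.inl (sm_zero' _)⟩

theorem xstep (h2 : LaxStmt) (h : IsV F v) {d : F} (hd : d ≠ 0) {P : Pt d} (hP : P ≠ 0)
    (hx : cX P ≠ 0) : sm lam P ≠ 0 ∧
      (cX (sm lam P) / d) * (2 * II F * (cX P / d)) = (cX P / d) ^ 2 - 1 := by
  obtain ⟨-, h3⟩ := h2 F d h.two_ne hd P hP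
  obtain ⟨h4, h5⟩ := h3 hx
  refine ⟨h4, ?_⟩
  have h6 : cX (sm lam P) * (2 * II F * cX P) = cX P ^ 2 - d ^ 2 := h5
  field_simp
  linear_combination h6

theorem good_x0 (h2 : LaxStmt) (h : IsV F v) {d : F} (hd : d ≠ 0) {P : Pt d}
    (hx : cX P = 0) : Good P := by
  by_cases hP : P = 0
  · rw [hP]; exact good_zero
  · apply good_step
    rw [(h2 F d h.two_ne hd P hP).1 hx]
    exact good_zero

theorem v_2II (h : IsV F v) {x : F} (hx : x ≠ 0) : v (2 * II F * x) = 2 + v x := by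
  rw [h.mul _ _ (mul_ne_zero h.two_ne II_ne) hx, h.mul _ _ h.two_ne II_ne, h.two, v_II h]
  omega

/-- case (a): one step -/
theorem step_neg (h2 : LaxStmt) (h : IsV F v) {d : F} (hd : d ≠ 0) {P : Pt d} (hP : P ≠ 0)
    (hx : cX P / d ≠ 0) (hv : v (cX P / d) < 0) :
    sm lam P ≠ 0 ∧ cX (sm lam P) / d ≠ 0 ∧ v (cX (sm lam P) / d) = v (cX P / d) - 2 := by
  have hx' : cX P ≠ 0 := fun h0 => hx (by rw [h0, zero_div])
  obtain ⟨h4, h5⟩ := xstep h2 h hd hP hx'
  have hsq : v ((cX P / d) ^ 2) = 2 * v (cX P / d) := h.pow _ hx 2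
  obtain ⟨h6, h7⟩ := h.add_lt ((cX P / d) ^ 2) (-1) (pow_ne_zero 2 hx)
    (Or.inr (by rw [hsq, h.neg_one]; omega))
  rw [← sub_eq_add_neg] at h6 h7
  have h8 : cX (sm lam P) / d ≠ 0 := by
    intro h0
    rw [h0, zero_mul] at h5
    exact h6 h5.symm
  refine ⟨h4, h8, ?_⟩
  have h9 := congrArg v h5
  rw [h.mul _ _ h8 (mul_ne_zero (mul_ne_zero h.two_ne II_ne) hx), v_2II h hx, h7, hsq] at h9
  omega

theorem iter_neg (h2 : LaxStmt) (h : IsV F v) {d : F} (hd : d ≠ 0) (n : ℕ) :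
    ∀ P : Pt d, P ≠ 0 → cX P / d ≠ 0 → v (cX P / d) < 0 →
    sm (lam ^ n) P ≠ 0 ∧ cX (sm (lam ^ n) P) / d ≠ 0 ∧
      v (cX (sm (lam ^ n) P) / d) = v (cX P / d) - 2 * n := by
  induction n with
  | zero =>
    intro P hP hx hv
    rw [pow_zero, sm_one']
    refine ⟨hP, hx, ?_⟩
    simp
  | succ n ih =>
    intro P hP hx hv
    obtain ⟨a1, a2, a3⟩ := step_neg h2 h hd hP hx hv
    obtain ⟨b1, b2, b3⟩ := ih (sm lam P) a1 a2 (by omega)
    rw [sm_pow_succ]
    refine ⟨b1, b2, ?_⟩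
    rw [b3, a3]
    push_cast
    ring

theorem good_neg (h2 : LaxStmt) (h : IsV F v) {d : F} (hd : d ≠ 0) {P : Pt d} (hP : P ≠ 0)
    (hx : cX P / d ≠ 0) (hv : v (cX P / d) < 0) : Good P := by
  intro N
  have h1 : 1 < ‖la F‖⁻¹ := (one_lt_inv₀ h.pos).2 h.lt
  obtain ⟨n, hn⟩ := pow_unbounded_of_one_lt N h1
  obtain ⟨b1, b2, b3⟩ := iter_neg h2 h hd n P hP hx hv
  refine ⟨n, Or.inr ?_⟩
  refine lt_of_lt_of_le hn ?_
  rw [h.norm _ b2, b3, inv_pow, ← zpow_natCast, ← zpow_neg]
  apply zpow_le_zpow_right_of_le_one₀ h.pos h.lt.le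
  omega

/-- case (b) -/
theorem good_pos (h2 : LaxStmt) (h : IsV F v) {d : F} (hd : d ≠ 0) {P : Pt d} (hP : P ≠ 0)
    (hx : cX P / d ≠ 0) (hv : 0 < v (cX P / d)) : Good P := by
  have hx' : cX P ≠ 0 := fun h0 => hx (by rw [h0, zero_div])
  obtain ⟨h4, h5⟩ := xstep h2 h hd hP hx'
  have hsq : v ((cX P / d) ^ 2) = 2 * v (cX P / d) := h.pow _ hx 2
  obtain ⟨h6, h7⟩ := h.add_lt (-1) ((cX P / d) ^ 2) (neg_ne_zero.2 one_ne_zero)
    (Or.inr (by rw [hsq, h.neg_one]; omega))
  rw [add_comm, ← sub_eq_add_neg] at h6 h7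
  have h8 : cX (sm lam P) / d ≠ 0 := by
    intro h0
    rw [h0, zero_mul] at h5
    exact h6 h5.symm
  have h9 := congrArg v h5
  rw [h.mul _ _ h8 (mul_ne_zero (mul_ne_zero h.two_ne II_ne) hx), v_2II h hx, h7,
    h.neg_one] at h9
  exact good_step (good_neg h2 h hd h4 h8 (by omega))

/-- `x ^ 2 = 1` -/
theorem good_sq (h2 : LaxStmt) (h : IsV F v) {d : F} (hd : d ≠ 0) {P : Pt d} (hP : P ≠ 0)
    (hx : cX P / d ≠ 0) (hs : (cX P / d) ^ 2 = 1) : Good P := by
  have hx' : cX P ≠ 0 := fun h0 => hx (by rw [h0, zero_div])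
  obtain ⟨h4, h5⟩ := xstep h2 h hd hP hx'
  rw [hs, sub_self] at h5
  apply good_step
  apply good_x0 h2 h hd
  rcases mul_eq_zero.1 h5 with h6 | h6
  · rcases div_eq_zero_iff.1 h6 with h7 | h7
    · exact h7
    · exact absurd h7 hd
  · exact absurd h6 (mul_ne_zero (mul_ne_zero h.two_ne II_ne) hx)

/-- case (c) -/
theorem good_c (h2 : LaxStmt) (h : IsV F v) {d : F} (hd : d ≠ 0) {P : Pt d} (hP : P ≠ 0)
    (hx : cX P / d ≠ 0) (hv : v (cX P / d) = 0) (hc : Ge v 2 (cX P / d - 1)) : Good P := by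
  by_cases hs : (cX P / d) ^ 2 = 1
  · exact good_sq h2 h hd hP hx hs
  have hx' : cX P ≠ 0 := fun h0 => hx (by rw [h0, zero_div])
  obtain ⟨h4, h5⟩ := xstep h2 h hd hP hx'
  set x := cX P / d with hxdef
  have hfac : x ^ 2 - 1 = (x - 1) * (x + 1) := by ring
  have hne : x ^ 2 - 1 ≠ 0 := sub_ne_zero.2 hs
  have h1 : x - 1 ≠ 0 := fun h0 => hne (by rw [hfac, h0, zero_mul])
  have h1' : x + 1 ≠ 0 := fun h0 => hne (by rw [hfac, h0, mul_zero])
  have hc2 : 2 ≤ v (x - 1) := by
    rcases hc with hc | hc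
    · exact absurd hc h1
    · exact hc
  have hge : 5 ≤ v (x ^ 2 - 1) := by
    rw [hfac, h.mul _ _ h1 h1']
    by_cases h3 : v (x - 1) = 2
    · -- x - 1 = 2 e
      have he0 : (x - 1) / 2 ≠ 0 := div_ne_zero h1 h.two_ne
      have hve : v ((x - 1) / 2) = 0 := by
        rw [h.div _ _ h1 h.two_ne, h3, h.two]
        rfl
      have hne1 : -((x - 1) / 2) ≠ 1 := by
        intro h0
        apply h1'
        have h22 : (2 : F) * ((x - 1) / 2) = x - 1 := mul_div_cancel₀ _ h.two_ne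
        linear_combination (-1 : F) * h22 - 2 * h0
      have hres := h.res (-((x - 1) / 2)) (neg_ne_zero.2 he0) (by rw [h.neg _ he0]; exact hve)
        hne1
      have h10 : x + 1 = (-2) * (-((x - 1) / 2) - 1) := by
        have h22 : (2 : F) * ((x - 1) / 2) = x - 1 := mul_div_cancel₀ _ h.two_ne
        linear_combination (-1 : F) * h22
      have h11 : v (x + 1) = v (-2 : F) + v (-((x - 1) / 2) - 1) := by
        rw [← h.mul _ _ (neg_ne_zero.2 h.two_ne) (sub_ne_zero.2 hne1), ← h10]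
      rw [h.neg 2 h.two_ne, h.two] at h11
      omega
    · obtain ⟨h6, h7⟩ := h.add_lt 2 (x - 1) h.two_ne (Or.inr (by rw [h.two]; omega))
      have h8 : (2 : F) + (x - 1) = x + 1 := by ring
      rw [h8, h.two] at h7
      omega
  have h8 : cX (sm lam P) / d ≠ 0 := by
    intro h0
    rw [h0, zero_mul] at h5
    exact hne h5.symm
  have h9 := congrArg v h5
  rw [h.mul _ _ h8 (mul_ne_zero (mul_ne_zero h.two_ne II_ne) hx), v_2II h hx, hv] at h9
  exact good_step (good_pos h2 h hd h4 h8 (by omega))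

/-- case (d) -/
theorem good_d (h2 : LaxStmt) (h : IsV F v) {d : F} (hd : d ≠ 0) {P : Pt d} (hP : P ≠ 0)
    (hx : cX P / d ≠ 0) (hv : v (cX P / d) = 0) (hc : v (cX P / d - 1) = 1) : Good P := by
  have hx' : cX P ≠ 0 := fun h0 => hx (by rw [h0, zero_div])
  obtain ⟨h4, h5⟩ := xstep h2 h hd hP hx'
  by_cases hx1 : cX P / d = 1
  · exact good_sq h2 h hd hP hx (by rw [hx1, one_pow])
  set x := cX P / d with hxdef
  set x' := cX (sm lam P) / d with hx'def
  have h1 : x - 1 ≠ 0 := sub_ne_zero.2 hx1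
  have hla := la_ne h
  obtain ⟨e, he⟩ : ∃ e : F, e = (x - 1) / la F := ⟨_, rfl⟩
  have he0 : e ≠ 0 := by rw [he]; exact div_ne_zero h1 hla
  have hve : v e = 0 := by
    rw [he, h.div _ _ h1 hla, hc, v_la h]
    rfl
  have hxe : x = 1 + la F * e := by
    rw [he, mul_div_cancel₀ _ hla]
    ring
  have hIla0 : II F * la F ≠ 0 := mul_ne_zero II_ne hla
  have hvIla : v (II F * la F) = 1 := by
    rw [h.mul _ _ II_ne hla, v_II h, v_la h]
    rfl
  obtain ⟨h6, h7⟩ := h.add_lt e (-(II F * la F)) he0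
    (Or.inr (by rw [h.neg _ hIla0, hvIla, hve]; omega))
  -- x' x = e (e - i la)
  have hla2 : la F ≠ 0 := hla
  have h10 : x' * x = e * (e + -(II F * la F)) := by
    have h11 : (2 * II F) * (x' * x) = (2 * II F) * (e * (e + -(II F * la F))) := by
      have h12 : x' * (2 * II F * x) = x ^ 2 - 1 := h5
      have h13 := la_sq (F := F)
      have h14 := II_sq (F := F)
      rw [hxe] at h12 ⊢
      linear_combination h12 + (e ^ 2) * h13 + 2 * e * la F * h14
    exact mul_left_cancel₀ (mul_ne_zero h.two_ne II_ne) h11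
  have h15 : x' ≠ 0 := by
    intro h0
    rw [h0, zero_mul] at h10
    exact (mul_ne_zero he0 h6) h10.symm
  have h16 : v x' = 0 := by
    have := congrArg v h10
    rw [h.mul _ _ h15 hx, hv, h.mul _ _ he0 h6, h7, hve] at this
    omega
  have h17 : Ge v 2 ((x' - 1) * x) := by
    have h18 : (x' - 1) * x = (e - 1) * (e + 1) + -(la F * la F * e) := by
      have h19 : la F * (1 + II F) = la F * la F := by rw [la_eq (F := F)]
      have h20 : (x' - 1) * x = x' * x - x := by ring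
      rw [h20, h10]
      rw [hxe]
      linear_combination (-e) * h19
    rw [h18]
    apply ge_add h
    · have g1 : Ge v 1 (e - 1) := by
        by_cases hh : e = 1
        · left; rw [hh, sub_self]
        · right; exact h.res e he0 hve hh
      have g2 : Ge v 1 (e + 1) := by
        by_cases hh : -e = 1
        · left
          rw [← hh, add_neg_cancel]
        · have g3 := h.res (-e) (neg_ne_zero.2 he0) (by rw [h.neg _ he0]; exact hve) hh
          have g4 : Ge v 1 (-(-e - 1)) := ge_neg h (Or.inr g3)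
          rwa [show -(-e - 1) = e + 1 by ring] at g4
      exact ge_mul h g1 g2
    · apply ge_neg h
      right
      rw [h.mul _ _ (mul_ne_zero hla hla) he0, h.mul _ _ hla hla, v_la h, hve]
      omega
  have h21 : Ge v 2 (x' - 1) := by
    rcases h17 with h17 | h17
    · left
      rcases mul_eq_zero.1 h17 with h18 | h18
      · exact h18
      · exact absurd h18 hx
    · by_cases h22 : x' - 1 = 0
      · exact Or.inl h22
      · right
        rw [h.mul _ _ h22 hx, hv] at h17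
        omega
  exact good_step (good_c h2 h hd h4 h15 h16 h21)

theorem good_all (h2 : LaxStmt) (h : IsV F v) {d : F} (hd : d ≠ 0) (P : Pt d) : Good P := by
  by_cases hP : P = 0
  · rw [hP]; exact good_zero
  by_cases hx : cX P / d = 0
  · rcases div_eq_zero_iff.1 hx with h7 | h7
    · exact good_x0 h2 h hd h7
    · exact absurd h7 hd
  rcases lt_trichotomy (v (cX P / d)) 0 with hv | hv | hv
  · exact good_neg h2 h hd hP hx hv
  · by_cases hx1 : cX P / d = 1
    · exact good_sq h2 h hd hP hx (by rw [hx1, one_pow])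
    · have h3 := h.res _ hx hv hx1
      by_cases h4 : v (cX P / d - 1) = 1
      · exact good_d h2 h hd hP hx hv h4
      · exact good_c h2 h hd hP hx hv (Or.inr (by omega))
  · exact good_pos h2 h hd hP hx hv

/-- K2G, in the form of StmtsP2. -/
theorem k2gP (h1 : VexStmt) (h2 : LaxStmt) : Pool.Agent.WAP.P2.K2gStmt := by
  intro F _ _ ϖ hF h2F d P N hd
  obtain ⟨v, hv⟩ := h1 F ϖ hF h2F
  exact good_all h2 hv hd P N

/-- K2G, in the form of StmtsM. -/
theorem k2g (h1 : VexStmt) (h2 : LaxStmt) : Pool.Agent.WAP.K2gStmt := by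
  intro F _ _ ϖ hF h2F d hd P N
  exact k2gP h1 h2 F ϖ hF h2F d P N hd

end Pool.Agent.WAP.H23
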